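import Pool.Agent.W931.LC.Props

set_option autoImplicit false

/-!
# Project LC (helper931): the chain condition of the product of the Levy collapses
-/

namespace Pool.Agent.W240.LC

open Cardinal Pool.Agent.Helper669.Forcing Pool.Agent.Helper669.K Pool.Agent.Helper669.U
  Pool.Agent.Helper669.V Pool.Agent.W931.KH Pool.Agent.W931.LC

/-- A function to a small set is constant on a measure one set. -/
theorem const_small (Q : Par) (j : I) {X : Type} (hX : #X < Q.ka j)
    (g : (Q.ka j).ord.ToType → X) : ∃ v, {b | g b = v} ∈ Q.U j := by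
  by_contra hcon
  push Not at hcon
  have h1 : ∀ v : X, {b | g b ≠ v} ∈ Q.U j := by
    intro v
    have := hcon v
    rw [← Ultrafilter.compl_mem_iff_notMem] at this
    exact this
  have h2 := Q.comp j X hX (fun v => {b | g b ≠ v}) h1
  have h3 : (⋂ v : X, {b | g b ≠ v}) = (∅ : Set (Q.ka j).ord.ToType) := by
    ext b
    simp
  rw [h3] at h2
  exact Ultrafilter.empty_notMem h2

/-- Regressive functions to triples are constant on a measure one set. -/
theorem const_reg (Q : Par) (j : I) {X : Type} (hX : #X < Q.ka j)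
    (g : (Q.ka j).ord.ToType → Option ((Q.ka j).ord.ToType × X × (Q.ka j).ord.ToType))
    (hg : ∀ b a x c, g b = some (a, x, c) → a < b ∧ c < b) : ∃ v, {b | g b = v} ∈ Q.U j := by
  classical
  by_cases h0 : {b | g b = none} ∈ Q.U j
  · exact ⟨none, h0⟩
  have h1 : {b | g b ≠ none} ∈ Q.U j := by
    rw [← Ultrafilter.compl_mem_iff_notMem] at h0
    exact h0
  -- the three components
  obtain ⟨a, ha⟩ : ∃ a, {b | (∃ x c, g b = some (a, x, c))} ∈ Q.U j := by
    obtain ⟨a, ha⟩ := Q.norm j (fun b => match g b with | none => b | some v => v.1) (by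
      filter_upwards [h1] with b hb
      obtain ⟨⟨a, x, c⟩, hv⟩ := Option.ne_none_iff_exists'.1 hb
      simp only [hv]
      exact (hg b a x c hv).1)
    refine ⟨a, ?_⟩
    filter_upwards [h1, ha] with b hb hab
    obtain ⟨⟨a', x, c⟩, hv⟩ := Option.ne_none_iff_exists'.1 hb
    simp only [hv] at hab
    exact ⟨x, c, by rw [hv, hab]⟩
  obtain ⟨c, hc⟩ : ∃ c, {b | (∃ a x, g b = some (a, x, c))} ∈ Q.U j := by
    obtain ⟨c, hc⟩ := Q.norm j (fun b => match g b with | none => b | some v => v.2.2) (by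
      filter_upwards [h1] with b hb
      obtain ⟨⟨a, x, c⟩, hv⟩ := Option.ne_none_iff_exists'.1 hb
      simp only [hv]
      exact (hg b a x c hv).2)
    refine ⟨c, ?_⟩
    filter_upwards [h1, hc] with b hb hab
    obtain ⟨⟨a', x, c'⟩, hv⟩ := Option.ne_none_iff_exists'.1 hb
    simp only [hv] at hab
    exact ⟨a', x, by rw [hv, hab]⟩
  have hOX : #(Option X) < Q.ka j := by
    rw [Cardinal.mk_option]
    exact Cardinal.add_lt_of_lt (Q.unc j).le hX (Cardinal.one_lt_aleph0.trans (Q.unc j))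
  obtain ⟨x, hx⟩ := const_small Q j hOX (fun b => (g b).map (fun v => v.2.1))
  obtain ⟨b0, hb0⟩ := (Q.U j).nonempty_of_mem (Filter.inter_mem (Filter.inter_mem ha hc) hx)
  refine ⟨g b0, ?_⟩
  filter_upwards [ha, hc, hx] with b h1 h2 h3
  obtain ⟨⟨⟨x1, c1, e1⟩, ⟨a2, x2, e2⟩⟩, e3⟩ := hb0
  obtain ⟨x3, c3, e4⟩ := h1
  obtain ⟨a4, x4, e5⟩ := h2
  simp only [Set.mem_ofPred_eq] at e3 h3
  rw [e1] at e2 e3
  rw [e4] at e5 h3
  simp only [Option.some.injEq, Prod.mk.injEq, Option.map_some] at e2 e3 e5 h3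
  rw [← e3] at h3
  simp only [Option.some.injEq] at h3
  rw [e1, e4, h3, e2.2.2, e5.2.2]

/-- The number of conditions of a Levy collapse. -/
theorem mk_Co (mu ka : Cardinal.{0}) : #(Co mu ka) ≤ 2 ^ (ka * (mu * ka)) := by
  have h1 : #(Set (ka.ord.ToType × mu.ord.ToType × ka.ord.ToType)) = 2 ^ (ka * (mu * ka)) := by
    rw [Cardinal.mk_set]
    simp [Cardinal.mk_prod]
  rw [← h1]
  refine Cardinal.mk_le_of_injective (f := fun c : Co mu ka => {z | c.f z.1 z.2.1 = some z.2.2}) ?_
  intro c c' h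
  have h2 : ∀ a x b, c.f a x = some b ↔ c'.f a x = some b := by
    intro a x b
    have := congrArg (fun s : Set (ka.ord.ToType × mu.ord.ToType × ka.ord.ToType) => (a, x, b) ∈ s) h
    simpa using this
  ext a x b
  exact h2 a x b

theorem mk_Co_lt (Q : Par) {i j : I} (h : i < j) : #(Co (Q.mu i) (Q.ka i)) < Q.ka j := by
  refine (mk_Co _ _).trans_lt (Q.strong j _ ?_)
  have h1 : Q.ka i < Q.ka j := Q.mono h
  have h2 : Q.mu i < Q.ka j := (Q.mu_lt_ka i).trans h1
  exact Cardinal.mul_lt_of_lt (Q.unc j).le h1 (Cardinal.mul_lt_of_lt (Q.unc j).le h2 h1)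

theorem tCC : S_CC := by
  classical
  intro Q j A hA
  by_contra hcon
  rw [not_lt] at hcon
  have hK : #(Q.ka j).ord.ToType = Q.ka j := by simp
  obtain ⟨emb⟩ : Nonempty ((Q.ka j).ord.ToType ↪ A) := by
    rw [← Cardinal.le_def, hK]; exact hcon
  let j' : Set.Iic j := ⟨j, Set.mem_Iic.2 le_rfl⟩
  let r : (Q.ka j).ord.ToType → (∀ i : Set.Iic j, Co (Q.mu i) (Q.ka i)) := fun b => (emb b).1
  -- small coordinates
  have hsm : ∀ i : Set.Iio j, ∃ v : Co (Q.mu i.1) (Q.ka i.1),
      {b | r b ⟨i.1, Set.mem_Iic.2 (le_of_lt (Set.mem_Iio.1 i.2))⟩ = v} ∈ Q.U j := fun i =>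
    const_small Q j (X := Co (Q.mu i.1) (Q.ka i.1)) (mk_Co_lt Q i.2)
      (fun b => r b ⟨i.1, Set.mem_Iic.2 (le_of_lt (Set.mem_Iio.1 i.2))⟩)
  choose v hv using hsm
  have hIio : #(Set.Iio j) < Q.ka j := by
    have h2 : #(Set.Iio j) < ℵ₁ := by simpa using Cardinal.mk_Iio_lt j
    exact h2.trans (Q.aleph1_lt_ka j)
  have hZ1 := Q.comp j (Set.Iio j) hIio _ hv
  -- the last coordinate
  let f : (Q.ka j).ord.ToType → Co (Q.mu j) (Q.ka j) := fun b => r b j'
  have hM : #(Q.mu j).ord.ToType = Q.mu j := by simp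
  have henum : ∀ b, ∃ E : (Q.mu j).ord.ToType →
      Option ((Q.ka j).ord.ToType × (Q.mu j).ord.ToType × (Q.ka j).ord.ToType),
      (∀ m a x c, E m = some (a, x, c) → a < b ∧ (f b).f a x = some c) ∧
      (∀ a x c, a < b → (f b).f a x = some c → ∃ m, E m = some (a, x, c)) := by
    intro b
    let D := {z : (Q.ka j).ord.ToType × (Q.mu j).ord.ToType // (f b).f z.1 z.2 ≠ none}
    have hD : #D ≤ #(Q.mu j).ord.ToType := by rw [hM]; exact (f b).small.le
    obtain ⟨g⟩ := Cardinal.le_def _ _ |>.1 hD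
    refine ⟨fun m => if h : ∃ d : D, g d = m ∧ d.1.1 < b then
      ((f b).f h.choose.1.1 h.choose.1.2).map (fun c => (h.choose.1.1, h.choose.1.2, c))
      else none, ?_, ?_⟩
    · intro m a x c hE
      by_cases h : ∃ d : D, g d = m ∧ d.1.1 < b
      · simp only [dif_pos h] at hE
        rw [Option.map_eq_some_iff] at hE
        obtain ⟨c', hc', he⟩ := hE
        simp only [Prod.mk.injEq] at he
        obtain ⟨e1, e2, e3⟩ := he
        have h2 := h.choose_spec.2
        rw [e1] at h2 hc'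
        rw [e2, e3] at hc'
        exact ⟨h2, hc'⟩
      · simp only [dif_neg h] at hE
        exact absurd hE (by simp)
    · intro a x c hab hc
      let d : D := ⟨(a, x), by simp [hc]⟩
      refine ⟨g d, ?_⟩
      have h : ∃ d' : D, g d' = g d ∧ d'.1.1 < b := ⟨d, rfl, hab⟩
      have hd : h.choose = d := g.injective h.choose_spec.1
      simp only [dif_pos h, hd]
      show ((f b).f a x).map (fun c => (a, x, c)) = some (a, x, c)
      rw [hc]
      rfl
  choose E hE1 hE2 using henum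
  have hconst : ∀ m, ∃ w, {b | E b m = w} ∈ Q.U j := by
    intro m
    refine const_reg Q j (by rw [hM]; exact Q.mu_lt_ka j) (fun b => E b m) ?_
    intro b a x c h
    obtain ⟨h1, h2⟩ := hE1 b m a x c h
    exact ⟨h1, ((f b).reg a x c h2).trans h1⟩
  choose w hw using hconst
  have hZ2 := Q.comp j (Q.mu j).ord.ToType (by rw [hM]; exact Q.mu_lt_ka j) _ hw
  have hZ := Filter.inter_mem hZ1 hZ2
  -- bounds
  have hbd : ∀ b, ∃ B, ∀ a x, (f b).f a x ≠ none → a < B := by
    intro b
    obtain ⟨B, hB⟩ := bdd_ord (Q.reg j) {a | ∃ x, (f b).f a x ≠ none} (by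
      refine lt_of_le_of_lt ?_ ((f b).small.trans (Q.mu_lt_ka j))
      refine Cardinal.mk_le_of_surjective
        (f := fun z : {z : (Q.ka j).ord.ToType × (Q.mu j).ord.ToType // (f b).f z.1 z.2 ≠ none} =>
          (⟨z.1.1, ⟨z.1.2, z.2⟩⟩ : {a | ∃ x, (f b).f a x ≠ none})) ?_
      rintro ⟨a, x, hx⟩
      exact ⟨⟨(a, x), hx⟩, rfl⟩)
    exact ⟨B, fun a x h => hB a ⟨x, h⟩⟩
  obtain ⟨b, hb⟩ := (Q.U j).nonempty_of_mem hZ
  obtain ⟨B, hB⟩ := hbd b
  obtain ⟨b', ⟨hb'1, hb'2⟩, hb'3, hb'4⟩ := (Q.U j).nonempty_of_mem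
    (Filter.inter_mem hZ (Filter.inter_mem (Q.tail j b) (Q.tail j B)))
  -- compatibility
  have hcomp : Pool.Agent.Helper669.GBase.Compat (r b) (r b') := by
    refine ⟨Function.update (r b) j' (Q.join j (f b) (f b')), ?_, ?_⟩
    · intro i
      by_cases hi : i = j'
      · subst hi
        rw [Function.update_self]
        exact Q.join_le_left j _ _
      · rw [Function.update_of_ne hi]
    · intro i
      by_cases hi : i = j'
      · subst hi
        rw [Function.update_self]
        intro a x d hd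
        show ((f b).f a x).or ((f b').f a x) = some d
        have hd' : (f b').f a x = some d := hd
        by_cases hab : a < b'
        · obtain ⟨m, hm⟩ := hE2 b' a x d hab hd'
          have h1 : E b' m = w m := Set.mem_iInter.1 hb'2 m
          have h2 : E b m = w m := Set.mem_iInter.1 hb.2 m
          rw [hm] at h1
          obtain ⟨-, h3⟩ := hE1 b m a x d (h2.trans h1.symm)
          rw [h3]; rfl
        · have h1 : (f b).f a x = none := by
            by_contra h2
            exact hab ((hB a x h2).trans hb'4)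
          rw [h1, hd']; rfl
      · rw [Function.update_of_ne hi]
        have hlt : i.1 < j := lt_of_le_of_ne i.2 (fun h => hi (Subtype.ext h))
        have h1 : r b ⟨i.1, Set.mem_Iic.2 (le_of_lt hlt)⟩ = v ⟨i.1, hlt⟩ := Set.mem_iInter.1 hb.1 ⟨i.1, hlt⟩
        have h2 : r b' ⟨i.1, Set.mem_Iic.2 (le_of_lt hlt)⟩ = v ⟨i.1, hlt⟩ := Set.mem_iInter.1 hb'1 ⟨i.1, hlt⟩
        have h3 : r b i = r b' i := h1.trans h2.symm
        rw [h3]
  have heq : r b = r b' := hA _ (emb b).2 _ (emb b').2 hcomp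
  have : b = b' := emb.injective (Subtype.ext heq)
  have hb3 : b < b' := hb'3
  rw [this] at hb3
  exact lt_irrefl _ hb3

end Pool.Agent.W240.LC
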